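import Pool.Agent.Helper85.BWD.Perturb

/-!
# MP_409118_an

Let `f` be a transcendental entire function with a Baker wandering domain, whose orbit of Fatou
components is `U 0, U 1, …`, and let `g` be meromorphic in the plane with
`sup_{z ∈ U n} |g z - 1| → 0`.  Then the product `f g` is a transcendental meromorphic function
with a Baker wandering domain.
-/

set_option autoImplicit false

namespace Pool.Agent.Results.MP_409118_an.ProductBWD

open Filter Topology Set Pool.Agent.Helper85.BWD

/-- If `f` is a transcendental entire function with a Baker wandering domain and `g` is meromorphic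
in the plane and tends to `1` along the orbit of that domain, then `f g` is transcendental
meromorphic and has a Baker wandering domain. -/
theorem result (f g : ℂ → ℂ) (hf : IsTranscendentalEntire f) (U : ℕ → Set ℂ)
    (hU : IsBakerWanderingDomain f U) (hg : MeromorphicOn g univ)
    (hlim : ∀ ε : ℝ, 0 < ε → ∀ᶠ n in atTop, ∀ z ∈ U n,
      ∃ w : ℂ, sphereValue g z = (w : OnePoint ℂ) ∧ ‖w - 1‖ ≤ ε) :
    IsTranscendentalMeromorphic (fun z => f z * g z) ∧
      ∃ V : ℕ → Set ℂ, IsBakerWanderingDomain (fun z => f z * g z) V :=
  main f g hf U hU hg hlim

end Pool.Agent.Results.MP_409118_an.ProductBWD
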